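import Mathlib
import Pool.Agent.Z894.CP.Stm3
import Pool.Agent.Z894.MB.Fin
import Pool.Agent.Y3.ND.Hid
import Pool.Agent.Y974.ND.K2
import Pool.Agent.Y547.ND.Norm
import Pool.Agent.Y378.ND.K1
import Pool.Agent.Y686.ND.NMain
import Pool.Agent.Y641.ND.Comb
import Pool.Agent.Y555.ND.Fin

set_option autoImplicit false

namespace Pool.Agent.Z894.ND

theorem final : NFinal :=
  Pool.Agent.Y555.ND.nfinal_holds
    (Pool.Agent.Y686.ND.nmain_holds
      (Pool.Agent.Y378.ND.k1_holds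
        (Pool.Agent.Y974.ND.k2_holds Pool.Agent.Y405.CP.alg_holds Pool.Agent.Z894.CP.kappa)
        Pool.Agent.Y170.MB.cmp_holds
        Pool.Agent.Y3.ND.hid_holds)
      Pool.Agent.Y547.ND.norm_holds
      Pool.Agent.Y405.CP.alg_holds)
    Pool.Agent.Y641.NDC.comb_holds

end Pool.Agent.Z894.ND
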